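import Pool.Agent.R713.QuatExtend

/-!
# MP_377342_al, Q1: extension of invariant `HA`-neutral subspaces
-/

set_option autoImplicit false

namespace Pool.Agent.Results.MP_377342_al.Extension

open Quaternion MulOpposite Matrix Pool.Agent.R713

/-- The right quaternionic subspaces of `ℍ^n`. -/
abbrev Sub (n : ℕ) : Type := Submodule ℍ[ℝ]ᵐᵒᵖ (Fin n → ℍ[ℝ])

/-- `M` is `A`-invariant. -/
def Invariant {n : ℕ} (A : Matrix (Fin n) (Fin n) ℍ[ℝ]) (M : Sub n) : Prop :=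
  ∀ x ∈ M, A *ᵥ x ∈ M

/-- `M` is `G`-neutral: `x^* G y = 0` for all `x, y ∈ M`. -/
def Neutral {n : ℕ} (G : Matrix (Fin n) (Fin n) ℍ[ℝ]) (M : Sub n) : Prop :=
  ∀ x ∈ M, ∀ y ∈ M, star x ⬝ᵥ (G *ᵥ y) = 0

/-- `M` is `G`-nonnegative: `x^* G x` is a nonnegative real number for all `x ∈ M`. -/
def Nonneg {n : ℕ} (G : Matrix (Fin n) (Fin n) ℍ[ℝ]) (M : Sub n) : Prop :=
  ∀ x ∈ M, ∃ r : ℝ, 0 ≤ r ∧ star x ⬝ᵥ (G *ᵥ x) = (r : ℍ[ℝ])

/-- `M` is `G`-nonpositive: `x^* G x` is a nonpositive real number for all `x ∈ M`. -/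
def Nonpos {n : ℕ} (G : Matrix (Fin n) (Fin n) ℍ[ℝ]) (M : Sub n) : Prop :=
  ∀ x ∈ M, ∃ r : ℝ, r ≤ 0 ∧ star x ⬝ᵥ (G *ᵥ x) = (r : ℍ[ℝ])

/-- `M` has the property `P` and is not properly contained in another subspace with it. -/
def Maximal {n : ℕ} (P : Sub n → Prop) (M : Sub n) : Prop :=
  P M ∧ ∀ M' : Sub n, M ≤ M' → P M' → M' = M

variable {n : ℕ}

/-- the linear map given by a matrix -/
def lin (A : Matrix (Fin n) (Fin n) ℍ[ℝ]) : (Fin n → ℍ[ℝ]) →ₗ[ℍ[ℝ]ᵐᵒᵖ] (Fin n → ℍ[ℝ]) where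
  toFun x := A *ᵥ x
  map_add' x y := Matrix.mulVec_add A x y
  map_smul' q x := Matrix.mulVec_smul A q x

theorem qherm (G : Matrix (Fin n) (Fin n) ℍ[ℝ]) (hG : Gᴴ = G) :
    QHerm (fun x y : Fin n → ℍ[ℝ] => star x ⬝ᵥ (G *ᵥ y)) where
  add_right x y z := by
    simp only [Matrix.mulVec_add, dotProduct_add]
  smul_right x y q := by
    simp only [Matrix.mulVec_smul]
    simp only [dotProduct, Pi.smul_apply, op_smul_eq_mul, Finset.sum_mul, mul_assoc]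
  symm x y := by
    rw [Matrix.star_dotProduct, Matrix.star_mulVec, hG, ← Matrix.dotProduct_mulVec]

theorem skew (H A : Matrix (Fin n) (Fin n) ℍ[ℝ]) (hA : H * A = -(Aᴴ * H)) (x y : Fin n → ℍ[ℝ]) :
    star (A *ᵥ x) ⬝ᵥ ((H * A) *ᵥ y) = -(star x ⬝ᵥ ((H * A) *ᵥ (A *ᵥ y))) := by
  have h1 : Aᴴ * (H * A) = -(H * A * A) := by
    rw [← mul_assoc, hA, neg_mul, neg_neg]
  rw [Matrix.star_mulVec, ← Matrix.dotProduct_mulVec, Matrix.mulVec_mulVec, h1,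
    Matrix.neg_mulVec, dotProduct_neg, Matrix.mulVec_mulVec]

instance finiteV : Module.Finite ℍ[ℝ]ᵐᵒᵖ (Fin n → ℍ[ℝ]) := by
  have : Module.Finite ℍ[ℝ]ᵐᵒᵖ ℍ[ℝ] := by
    refine ⟨⟨{1}, ?_⟩⟩
    rw [Submodule.eq_top_iff']
    intro x
    rw [Finset.coe_singleton, Submodule.mem_span_singleton]
    exact ⟨op x, by rw [op_smul_eq_mul, one_mul]⟩
  infer_instance

theorem real_of_herm {G : Matrix (Fin n) (Fin n) ℍ[ℝ]} (hG : Gᴴ = G) (x : Fin n → ℍ[ℝ]) :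
    star x ⬝ᵥ (G *ᵥ x) = ((star x ⬝ᵥ (G *ᵥ x)).re : ℍ[ℝ]) := (qherm G hG).real x

theorem main (G A : Matrix (Fin n) (Fin n) ℍ[ℝ]) (hG : Gᴴ = G)
    (hA : ∀ x y, star (A *ᵥ x) ⬝ᵥ (G *ᵥ y) = -(star x ⬝ᵥ (G *ᵥ (A *ᵥ y))))
    (N : Sub n) (hN : Invariant A N) (hneu : Neutral G N) :
    ∃ L : Sub n, N ≤ L ∧ Invariant A L ∧ Maximal (Nonneg G) L := by
  have hn : ∀ M : Sub n, Nonneg G M ↔
      QNonneg (fun x y : Fin n → ℍ[ℝ] => star x ⬝ᵥ (G *ᵥ y)) M := by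
    intro M
    constructor
    · intro h x hx
      obtain ⟨r, hr, he⟩ := h x hx
      simp only [he]
      rw [Quaternion.re_coe]
      exact hr
    · intro h x hx
      exact ⟨_, h x hx, real_of_herm hG x⟩
  obtain ⟨L, h1, h2, h3, h4⟩ := extend_nonneg (qherm G hG) (lin A) hA N hN hneu
  exact ⟨L, h1, h2, (hn L).2 h3, fun M hM hM' => h4 M hM ((hn M).1 hM')⟩

/-- For all invertible `H` with `H^* = -H`, all `H`-Hamiltonian `A` and every `A`-invariant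
`HA`-neutral subspace `N` there are `A`-invariant subspaces containing `N` that are maximal
`HA`-nonnegative and maximal `HA`-nonpositive, respectively. -/
theorem result (n : ℕ) (H A : Matrix (Fin n) (Fin n) ℍ[ℝ]) (_hH : IsUnit H) (hH : Hᴴ = -H)
    (hA : H * A = -(Aᴴ * H)) (N : Sub n) (hN : Invariant A N) (hneu : Neutral (H * A) N) :
    (∃ L : Sub n, N ≤ L ∧ Invariant A L ∧ Maximal (Nonneg (H * A)) L) ∧
    (∃ L : Sub n, N ≤ L ∧ Invariant A L ∧ Maximal (Nonpos (H * A)) L) := by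
  have hG : (H * A)ᴴ = H * A := by
    rw [Matrix.conjTranspose_mul, hH, mul_neg, ← hA]
  refine ⟨main (H * A) A hG (skew H A hA) N hN hneu, ?_⟩
  have hG' : (-(H * A))ᴴ = -(H * A) := by rw [Matrix.conjTranspose_neg, hG]
  obtain ⟨L, h1, h2, h3, h4⟩ := main (-(H * A)) A hG' (by
      intro x y
      rw [Matrix.neg_mulVec, Matrix.neg_mulVec, dotProduct_neg, dotProduct_neg, skew H A hA])
    N hN (by
      intro x hx y hy
      rw [Matrix.neg_mulVec, dotProduct_neg, hneu x hx y hy, neg_zero])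
  have hn : ∀ M : Sub n, Nonneg (-(H * A)) M ↔ Nonpos (H * A) M := by
    intro M
    constructor
    · intro h x hx
      obtain ⟨r, hr, he⟩ := h x hx
      refine ⟨-r, by linarith, ?_⟩
      rw [Matrix.neg_mulVec, dotProduct_neg] at he
      rw [Quaternion.coe_neg, ← he, neg_neg]
    · intro h x hx
      obtain ⟨r, hr, he⟩ := h x hx
      refine ⟨-r, by linarith, ?_⟩
      rw [Matrix.neg_mulVec, dotProduct_neg, he, Quaternion.coe_neg]
  exact ⟨L, h1, h2, (hn L).1 h3, fun M hM hM' => h4 M hM ((hn M).2 hM')⟩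

end Pool.Agent.Results.MP_377342_al.Extension
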